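import Pool.Agent.Helper37.DG.Stmts

/-!
Module FINAL of the project DG: transfer to the plane.
-/

namespace Pool.Agent.Helper37.DG

open Finset
open scoped Classical
open Pool.Agent.Helper17.SO (PP LL)

/-- the distance of two points of the grid -/
theorem final_dist (o u : ℂ) (v w : ℤ × ℤ) :
    dist (o + u * ((v.1 : ℂ) + (v.2 : ℂ) * Complex.I)) (o + u * ((w.1 : ℂ) + (w.2 : ℂ) * Complex.I))
      = ‖u‖ * Real.sqrt (nm (v - w)) := by
  rw [dist_eq_norm]
  have e : o + u * ((v.1 : ℂ) + (v.2 : ℂ) * Complex.I) -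
      (o + u * ((w.1 : ℂ) + (w.2 : ℂ) * Complex.I)) =
      u * ((((v.1 - w.1 : ℤ) : ℝ) : ℂ) + (((v.2 - w.2 : ℤ) : ℝ) : ℂ) * Complex.I) := by
    push_cast; ring
  rw [e, norm_mul, Complex.norm_add_mul_I]
  congr 2
  unfold nm
  have h0 : (0 : ℤ) ≤ (v - w).1 ^ 2 + (v - w).2 ^ 2 := by positivity
  have h1 : (((((v - w).1 ^ 2 + (v - w).2 ^ 2).natAbs : ℕ) : ℤ) : ℝ) =
      (((v - w).1 ^ 2 + (v - w).2 ^ 2 : ℤ) : ℝ) := by
    rw [Int.natAbs_of_nonneg h0]
  rw [Int.cast_natCast] at h1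
  rw [h1]
  push_cast
  simp only [Prod.fst_sub, Prod.snd_sub]
  push_cast
  ring

theorem final_core {ε c : ℝ} (hc : 0 < c)
    (h : ∀ (N M : ℕ) (P : Finset (ℤ × ℤ)), 1 ≤ M → M ≤ N → P ⊆ box N M → 2 ≤ P.card →
      c * ((P.card : ℝ) / (M * N)) ^ ε * P.card / Real.sqrt (Real.log N) ≤ dc P)
    (M N : ℕ) (hMN : M ≤ N) (o u : ℂ) (P G : Finset ℂ) (hu : u ≠ 0) (hGP : G ⊆ P)
    (hG : ∀ g ∈ G, ∃ x y : ℕ, x < N ∧ y < M ∧ g = o + u * (x + y * Complex.I))
    (hG2 : 2 ≤ G.card) :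
    c * ((G.card : ℝ) / (M * N)) ^ ε * G.card / Real.sqrt (Real.log (M * N)) ≤
      (P.offDiag.image (fun a => dist a.1 a.2)).card := by
  obtain ⟨g0, hg0⟩ : G.Nonempty := Finset.card_pos.1 (by omega)
  have hM1 : 1 ≤ M := by
    obtain ⟨x, y, hx, hy, _⟩ := hG g0 hg0
    omega
  have hN1 : 1 ≤ N := le_trans hM1 hMN
  choose! fx fy hfx hfy hf using hG
  obtain ⟨f, hfdef⟩ : ∃ f : ℂ → ℤ × ℤ, f = fun g => ((fx g : ℤ), (fy g : ℤ)) := ⟨_, rfl⟩
  have hfg : ∀ g ∈ G, g = o + u * (((f g).1 : ℂ) + ((f g).2 : ℂ) * Complex.I) := by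
    intro g hg
    have := hf g hg
    rw [hfdef]
    simp only [Int.cast_natCast]
    exact this
  have hinj : Set.InjOn f G := by
    intro a ha b hb hab
    rw [hfg a ha, hfg b hb, hab]
  have hcard : (G.image f).card = G.card := Finset.card_image_of_injOn hinj
  have hbox : G.image f ⊆ box N M := by
    intro v hv
    obtain ⟨g, hg, rfl⟩ := Finset.mem_image.1 hv
    unfold box
    rw [hfdef]
    simp only [Finset.mem_product, Finset.mem_Ico]
    have h1 := hfx g hg
    have h2 := hfy g hg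
    refine ⟨⟨by positivity, by exact_mod_cast h1⟩, ⟨by positivity, by exact_mod_cast h2⟩⟩
  have h1 := h N M (G.image f) hM1 hMN hbox (by rw [hcard]; exact hG2)
  rw [hcard] at h1
  have hun : 0 < ‖u‖ := norm_pos_iff.2 hu
  have h2 : dc (G.image f) ≤ (P.offDiag.image (fun a => dist a.1 a.2)).card := by
    unfold dc
    refine Finset.card_le_card_of_injOn (fun m : ℕ => ‖u‖ * Real.sqrt m) ?_ ?_
    · intro m hm
      obtain ⟨⟨v, w⟩, hvw, rfl⟩ := Finset.mem_image.1 (Finset.mem_coe.1 hm)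
      rw [Finset.mem_offDiag] at hvw
      obtain ⟨hv, hw, hne⟩ := hvw
      obtain ⟨a, ha, rfl⟩ := Finset.mem_image.1 hv
      obtain ⟨b, hb, rfl⟩ := Finset.mem_image.1 hw
      refine Finset.mem_coe.2 (Finset.mem_image.2 ⟨(a, b), ?_, ?_⟩)
      · rw [Finset.mem_offDiag]
        refine ⟨hGP ha, hGP hb, fun hab => ?_⟩
        simp only at hab hne
        exact hne (by rw [hab])
      · simp only
        conv_lhs => rw [hfg a ha, hfg b hb]
        exact final_dist o u (f a) (f b)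
    · intro m _ m' _ hmm
      simp only at hmm
      have h3 : Real.sqrt (m : ℝ) = Real.sqrt (m' : ℝ) := mul_left_cancel₀ hun.ne' hmm
      rw [Real.sqrt_inj (Nat.cast_nonneg m) (Nat.cast_nonneg m')] at h3
      exact_mod_cast h3
  have h3 : c * ((G.card : ℝ) / (M * N)) ^ ε * G.card / Real.sqrt (Real.log (M * N)) ≤
      c * ((G.card : ℝ) / (M * N)) ^ ε * G.card / Real.sqrt (Real.log N) := by
    by_cases hN : N = 1
    · have hM : M = 1 := by omega
      rw [hN, hM]
      simp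
    · have hN2 : (1 : ℝ) < N := by
        have : 1 < N := by omega
        exact_mod_cast this
      have hl : 0 < Real.log N := Real.log_pos hN2
      have hMr : (1 : ℝ) ≤ M := by exact_mod_cast hM1
      have hl2 : Real.log N ≤ Real.log (M * N) := by
        apply Real.log_le_log (by linarith)
        nlinarith
      refine div_le_div_of_nonneg_left (by positivity) (Real.sqrt_pos.2 hl)
        (Real.sqrt_le_sqrt hl2)
  have h4 : ((dc (G.image f) : ℕ) : ℝ) ≤
      ((P.offDiag.image (fun a => dist a.1 a.2)).card : ℝ) := by exact_mod_cast h2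
  linarith

theorem st_FINAL (h : ST_MAIN) : ST_FINAL := by
  intro ε hε
  obtain ⟨c, hc, hmain⟩ := h ε hε
  refine ⟨c, hc, ?_⟩
  intro M N o u P G hu hGP hG hG2
  by_cases hMN : M ≤ N
  · exact final_core hc hmain M N hMN o u P G hu hGP hG hG2
  · have h1 := final_core hc hmain N M (by omega) (o + u * ((N : ℂ) - 1)) (u * Complex.I) P G
      (mul_ne_zero hu Complex.I_ne_zero) hGP (by
        intro g hg
        obtain ⟨x, y, hx, hy, hxy⟩ := hG g hg
        refine ⟨y, N - 1 - x, hy, by omega, ?_⟩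
        rw [hxy]
        have hc : ((N - 1 - x : ℕ) : ℂ) = (N : ℂ) - 1 - x := by
          rw [Nat.sub_sub, Nat.cast_sub (by omega)]
          push_cast; ring
        rw [hc]
        have hI : Complex.I * Complex.I = -1 := Complex.I_mul_I
        linear_combination (-(u * ((N : ℂ) - 1 - x))) * hI) hG2
    rw [mul_comm (N : ℝ) (M : ℝ)] at h1
    exact h1

end Pool.Agent.Helper37.DG
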